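import Pool.Agent.W46.HM.Stm

/-! Two small entropy lemmas. -/

set_option autoImplicit false

open Finset
open Pool.Agent.W904.AK Pool.Agent.W46.HD Pool.Agent.W46.HM
open scoped Classical

namespace Pool.Agent.W440.HM

theorem phi_step (r r' : ℝ) (h' : 0 ≤ r') (h : r' ≤ r) :
    (r - r') * -Real.log r ≤ r * (1 - Real.log r) - r' * (1 - Real.log r') := by
  rcases h'.eq_or_lt with h0 | h0
  · rw [← h0]
    nlinarith
  · have hr : 0 < r := lt_of_lt_of_le h0 h
    have h1 : Real.log (r / r') ≤ r / r' - 1 := Real.log_le_sub_one_of_pos (by positivity)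
    rw [Real.log_div hr.ne' h0.ne'] at h1
    have h2 : r' * (Real.log r - Real.log r') ≤ r' * (r / r' - 1) :=
      mul_le_mul_of_nonneg_left h1 h0.le
    have h3 : r' * (r / r' - 1) = r - r' := by field_simp
    nlinarith

theorem ABEL : S_ABEL := by
  intro Θ _ μ tm hμ
  set R : ℕ → ℝ := fun k => ∑ z, (if k ≤ tm z then μ z else 0) with hR
  have hR0 : ∀ k, 0 ≤ R k := fun k => sum_nonneg fun z _ => by
    split_ifs
    · exact hμ z
    · exact le_rfl
  have hRstep : ∀ k, R k = R (k + 1) + ∑ z, (if tm z = k then μ z else 0) := by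
    intro k
    simp only [hR]
    rw [← sum_add_distrib]
    refine sum_congr rfl fun z _ => ?_
    by_cases h1 : tm z = k
    · rw [if_pos (by omega), if_neg (by omega), if_pos h1, zero_add]
    · by_cases h2 : k ≤ tm z
      · rw [if_pos h2, if_pos (by omega), if_neg h1, add_zero]
      · rw [if_neg h2, if_neg (by omega), if_neg h1, add_zero]
  have hfib : ∀ k, 0 ≤ ∑ z, (if tm z = k then μ z else 0) := fun k => sum_nonneg fun z _ => by
    split_ifs
    · exact hμ z
    · exact le_rfl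
  have key : ∀ K : ℕ, ∑ y, (if tm y < K then μ y * -Real.log (R (tm y)) else 0) ≤
      R 0 * (1 - Real.log (R 0)) - R K * (1 - Real.log (R K)) := by
    intro K
    induction K with
    | zero => simp
    | succ K ih =>
      have h1 : ∑ y, (if tm y < K + 1 then μ y * -Real.log (R (tm y)) else 0) =
          ∑ y, (if tm y < K then μ y * -Real.log (R (tm y)) else 0) +
            (R K - R (K + 1)) * -Real.log (R K) := by
        have h2 : R K - R (K + 1) = ∑ z, (if tm z = K then μ z else 0) := by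
          rw [hRstep K]; ring
        rw [h2, sum_mul, ← sum_add_distrib]
        refine sum_congr rfl fun y _ => ?_
        by_cases h1 : tm y = K
        · rw [if_pos (by omega), if_neg (by omega), if_pos h1, h1, zero_add]
        · by_cases h2 : tm y < K
          · rw [if_pos (by omega), if_pos h2, if_neg h1]; ring
          · rw [if_neg (by omega), if_neg h2, if_neg h1]; ring
      rw [h1]
      have h3 : R (K + 1) ≤ R K := by rw [hRstep K]; linarith [hfib K]
      have h4 := phi_step (R K) (R (K + 1)) (hR0 _) h3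
      linarith
  have hKK := key (∑ y, tm y + 1)
  have hlt : ∀ y, tm y < ∑ y, tm y + 1 := fun y =>
    Nat.lt_succ_of_le (single_le_sum (f := tm) (fun _ _ => Nat.zero_le _) (mem_univ y))
  have hRK : R (∑ y, tm y + 1) = 0 := by
    simp only [hR]
    refine sum_eq_zero fun z _ => ?_
    rw [if_neg]
    have := hlt z
    omega
  have hR00 : R 0 = ∑ y, μ y := by
    simp only [hR]
    refine sum_congr rfl fun z _ => ?_
    rw [if_pos (Nat.zero_le _)]
  rw [hRK, hR00, zero_mul, sub_zero] at hKK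
  refine le_trans (le_of_eq ?_) hKK
  refine sum_congr rfl fun y _ => ?_
  rw [if_pos (hlt y)]

theorem geo_bound (δ : ℝ) (hδ : 0 < δ) : ∃ B : ℝ, 1 ≤ B ∧ ∀ (t : ℝ) (S : Finset ℕ),
    ∑ a ∈ S, Real.exp (-(δ * |(a : ℝ) - t|)) ≤ B := by
  set r : ℝ := Real.exp (-δ) with hr
  have hr0 : 0 ≤ r := (Real.exp_pos _).le
  have hr1 : r < 1 := by rw [hr, Real.exp_lt_one_iff]; linarith
  have hs : Summable fun i : ℤ => r ^ i.natAbs := by
    apply Summable.of_nat_of_neg
    · simpa using summable_geometric_of_lt_one hr0 hr1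
    · simpa using summable_geometric_of_lt_one hr0 hr1
  refine ⟨Real.exp δ * ∑' i : ℤ, r ^ i.natAbs + 1, ?_, ?_⟩
  · have : 0 ≤ ∑' i : ℤ, r ^ i.natAbs := tsum_nonneg fun i => pow_nonneg hr0 _
    have h2 := mul_nonneg (Real.exp_pos δ).le this
    linarith
  · intro t S
    have h1 : ∀ a ∈ S, Real.exp (-(δ * |(a : ℝ) - t|)) ≤
        Real.exp δ * r ^ ((a : ℤ) - ⌊t⌋).natAbs := by
      intro a _
      rw [hr, ← Real.exp_nat_mul, ← Real.exp_add]
      apply Real.exp_le_exp.mpr
      have h2 : ((((a : ℤ) - ⌊t⌋).natAbs : ℕ) : ℝ) = |(a : ℝ) - ⌊t⌋| := by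
        rw [Nat.cast_natAbs]; push_cast; rfl
      rw [h2]
      have h3 : |(a : ℝ) - ⌊t⌋| ≤ |(a : ℝ) - t| + 1 := by
        have h4 : (a : ℝ) - ⌊t⌋ = ((a : ℝ) - t) + (t - ⌊t⌋) := by ring
        rw [h4]
        refine (abs_add_le _ _).trans ?_
        have h5 : |t - ⌊t⌋| ≤ 1 := by
          rw [abs_of_nonneg (by linarith [Int.floor_le t])]
          linarith [Int.lt_floor_add_one t]
        linarith
      nlinarith
    have hinj : Set.InjOn (fun a : ℕ => (a : ℤ) - ⌊t⌋) (S : Set ℕ) := by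
      intro a _ b _ hab
      simp only at hab
      omega
    calc ∑ a ∈ S, Real.exp (-(δ * |(a : ℝ) - t|))
        ≤ ∑ a ∈ S, Real.exp δ * r ^ ((a : ℤ) - ⌊t⌋).natAbs := sum_le_sum h1
      _ = Real.exp δ * ∑ a ∈ S, r ^ ((a : ℤ) - ⌊t⌋).natAbs := (mul_sum _ _ _).symm
      _ = Real.exp δ * ∑ i ∈ S.image (fun a : ℕ => (a : ℤ) - ⌊t⌋), r ^ i.natAbs := by
          rw [sum_image hinj]
      _ ≤ Real.exp δ * ∑' i : ℤ, r ^ i.natAbs :=
          mul_le_mul_of_nonneg_left (hs.sum_le_tsum _ fun i _ => pow_nonneg hr0 _)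
            (Real.exp_pos δ).le
      _ ≤ _ := by linarith

theorem HJ (hG : S_GIBBS) : S_HJ := by
  intro ε hε
  have hl2 : 0 < Real.log 2 := Real.log_pos (by norm_num)
  obtain ⟨B, hB1, hB⟩ := geo_bound (ε * Real.log 2) (by positivity)
  have hB0 : 0 < B := by linarith
  refine ⟨Real.log B, Real.log_nonneg hB1, ?_⟩
  intro Θ _ q j θ hq
  have h1 := hG Θ ℕ q j (fun a => B⁻¹ * Real.exp (-(ε * |(a : ℝ) * Real.log 2 - θ|))) hq
    (fun a => by positivity) (fun S => by
      rw [← mul_sum]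
      have h2 := hB (θ / Real.log 2) S
      have h3 : ∀ a ∈ S, Real.exp (-(ε * |(a : ℝ) * Real.log 2 - θ|)) =
          Real.exp (-(ε * Real.log 2 * |(a : ℝ) - θ / Real.log 2|)) := by
        intro a _
        congr 2
        rw [mul_assoc, ← abs_of_pos hl2, ← abs_mul, abs_of_pos hl2]
        congr 2
        field_simp
      rw [sum_congr rfl h3]
      calc B⁻¹ * _ ≤ B⁻¹ * B := mul_le_mul_of_nonneg_left h2 (by positivity)
        _ = 1 := inv_mul_cancel₀ hB0.ne')
  refine h1.trans ?_
  have h4 : ∀ x, q x * -Real.log (B⁻¹ * Real.exp (-(ε * |(j x : ℝ) * Real.log 2 - θ|))) =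
      q x * Real.log B + ε * (q x * |(j x : ℝ) * Real.log 2 - θ|) := by
    intro x
    rw [Real.log_mul (by positivity) (Real.exp_pos _).ne', Real.log_exp, Real.log_inv]
    ring
  simp only [h4]
  rw [sum_add_distrib, ← sum_mul, ← mul_sum, hq.2, one_mul]

end Pool.Agent.W440.HM
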